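import Pool.Agent.R766.UG.Super

/-!
# Loop density and spectral radius: the linear rate is attained

For every `d ≥ 3` there is `C > 0` such that for every `r ∈ (0, 1]` there is an infinite unimodular
random `d`-regular graph with density of loops at least `r` and spectral radius at most
`2 √(d - 1) / d + C r`.

The graph is a tree of balls of radius `R` in the `d`-regular tree: the centre of each ball has a
loop instead of one of its `d` children, and the leaves are joined to the leaves of other balls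
along the Cayley graph of a free product of groups of order two. The root is uniform in one ball.
The density of loops is of order `(d - 1)^(-R)`, and a positive function which decays by
`1 / √(d - 1)` along the edges, slightly less on the way up to a centre, shows that the spectral
radius is at most `2 √(d - 1) / d + O((d - 1)^(-R))`.
-/

set_option autoImplicit false

open MeasureTheory Filter Topology Finset
open scoped ENNReal

namespace Pool.Agent.Results.MP_74bc7f_pr.LinearRate

open Pool.Agent.R766.UG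

theorem card_ball_zero (m : ℕ) : Fintype.card (Ball m 0) = 1 := by
  rw [Fintype.card_eq_one_iff]
  refine ⟨⟨[], le_rfl⟩, fun y => Subtype.ext ?_⟩
  exact List.length_eq_zero_iff.1 (Nat.le_zero.1 y.2)

theorem card_ball_succ (m R : ℕ) :
    Fintype.card (Ball m (R + 1)) ≤ m * Fintype.card (Ball m R) + 1 := by
  let f : Option (Fin m × Ball m R) → Ball m (R + 1) := fun z =>
    match z with
    | none => ⟨[], Nat.zero_le _⟩
    | some p => ⟨p.1 :: p.2.1, by rw [List.length_cons]; have := p.2.2; omega⟩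
  have hf : Function.Surjective f := by
    rintro ⟨x, hx⟩
    rcases x with _ | ⟨j, x⟩
    · exact ⟨none, rfl⟩
    · exact ⟨some (j, ⟨x, by rw [List.length_cons] at hx; omega⟩), rfl⟩
  have := Fintype.card_le_of_surjective f hf
  rwa [Fintype.card_option, Fintype.card_prod, Fintype.card_fin] at this

theorem card_ball_le {m : ℕ} (hm : 2 ≤ m) (R : ℕ) : Fintype.card (Ball m R) + 1 ≤ m ^ (R + 1) := by
  induction R with
  | zero => rw [card_ball_zero, zero_add, pow_one]; exact hm
  | succ R ih =>
    have h1 := card_ball_succ m R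
    have h2 : m * Fintype.card (Ball m R) + m ≤ m ^ (R + 1 + 1) := by
      calc m * Fintype.card (Ball m R) + m = m * (Fintype.card (Ball m R) + 1) := by ring
        _ ≤ m * m ^ (R + 1) := Nat.mul_le_mul_left m ih
        _ = m ^ (R + 1 + 1) := by ring
    omega

/-- The choice of the radius. -/
theorem exists_radius {m : ℕ} (hm : 2 ≤ m) {r : ℝ} (hr0 : 0 < r) (hr1 : r ≤ 1) :
    ∃ R : ℕ, r ≤ 1 / (Fintype.card (Ball m R) : ℝ) ∧ 1 < (m : ℝ) ^ (R + 2) * r := by
  have hm' : (1 : ℝ) < m := by exact_mod_cast (show 1 < m by omega)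
  obtain ⟨n, h1, h2⟩ := exists_nat_pow_near (one_le_one_div hr0 hr1) hm'
  have h2' : 1 < (m : ℝ) ^ (n + 1) * r := (div_lt_iff₀ hr0).1 h2
  have h1' : (m : ℝ) ^ n * r ≤ 1 := (le_div_iff₀ hr0).1 h1
  have hcard : ∀ R, (0 : ℝ) < Fintype.card (Ball m R) := fun R => by
    exact_mod_cast Fintype.card_pos
  rcases n with _ | n
  · refine ⟨0, ?_, ?_⟩
    · rw [card_ball_zero]; simpa using hr1
    · have : (m : ℝ) ^ (0 + 1) * r ≤ (m : ℝ) ^ (0 + 2) * r :=
        mul_le_mul_of_nonneg_right (pow_le_pow_right₀ hm'.le (by norm_num)) hr0.le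
      linarith
  · refine ⟨n, ?_, by rwa [show n + 2 = n + 1 + 1 by ring]⟩
    rw [le_div_iff₀ (hcard n)]
    have h3 : (Fintype.card (Ball m n) : ℝ) ≤ (m : ℝ) ^ (n + 1) := by
      have := card_ball_le hm n
      exact_mod_cast (show Fintype.card (Ball m n) ≤ m ^ (n + 1) by omega)
    calc r * (Fintype.card (Ball m n) : ℝ) ≤ r * (m : ℝ) ^ (n + 1) :=
          mul_le_mul_of_nonneg_left h3 hr0.le
      _ ≤ 1 := by linarith

instance instMS (m R : ℕ) : MeasurableSpace (Ball m R) := ⊤

instance (m R : ℕ) : DiscreteMeasurableSpace (Ball m R) := ⟨fun _ => trivial⟩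

/-- The uniform law on the ball. -/
noncomputable def unif (m R : ℕ) : Measure (Ball m R) :=
  (PMF.uniformOfFintype (Ball m R)).toMeasure

theorem unif_singleton (m R : ℕ) (x : Ball m R) :
    unif m R {x} = ((Fintype.card (Ball m R) : ℕ) : ℝ≥0∞)⁻¹ := by
  unfold unif
  rw [PMF.toMeasure_apply_singleton _ _ (measurableSet_singleton x), PMF.uniformOfFintype_apply]

theorem isUnimodular (m R : ℕ) : IsUnimodular (m + 1) (unif m R) (fun _ => adj m R)
    (fun x => (1, x)) where
  prob := by unfold unif; infer_instance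
  meas_graph _ _ := measurable_const
  meas_root _ := trivial
  graph _ := adj_graph
  mtp f _ hinv := by
    rw [lintegral_fintype, lintegral_fintype]
    simp only [unif_singleton, ← sum_mul]
    congr 1
    refine mtp (fun v w => f (adj m R) v w) fun h v w => ?_
    rw [← hinv]
    congr 1
    funext u v
    exact adj_shift h u v

theorem specRad_adj_le {m R : ℕ} (hm : 2 ≤ m) (hR : 1 ≤ R) (v : Vt m R) :
    specRad (m + 1) (adj m R) v ≤ ENNReal.ofReal (lam m R / (m + 1)) := by
  refine specRad_le (by omega) (F := fun w => ENNReal.ofReal (FF w)) v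
    (ENNReal.ofReal_pos.2 (FF_pos hm v)).ne' ENNReal.ofReal_ne_top fun w => ?_
  unfold adj
  rw [tsum_mult nb (fun w => ENNReal.ofReal (FF w)),
    ← ENNReal.ofReal_sum_of_nonneg fun k _ => (FF_pos hm _).le]
  have h1 : ((m + 1 : ℕ) : ℝ≥0∞) = ENNReal.ofReal (m + 1) := by
    rw [← ENNReal.ofReal_natCast]; push_cast; rfl
  have hlam : 0 ≤ lam m R := by
    unfold lam
    have := be_pos hm
    positivity
  rw [h1, ← ENNReal.ofReal_mul (by positivity), ← ENNReal.ofReal_mul (by positivity)]
  refine ENNReal.ofReal_le_ofReal ?_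
  rw [div_mul_cancel₀ _ (by positivity)]
  exact FF_super hm hR w

theorem specRad_adj_le_one {m R : ℕ} (v : Vt m R) : specRad (m + 1) (adj m R) v ≤ 1 := by
  refine specRad_le (by omega) (F := fun _ => 1) v one_ne_zero ENNReal.one_ne_top fun w => ?_
  unfold adj
  rw [tsum_mult nb (fun _ => 1)]
  simp

theorem specRad_bound {m R : ℕ} (hm : 2 ≤ m) {r : ℝ} (hr0 : 0 < r)
    (hR : 1 < (m : ℝ) ^ (R + 2) * r) (v : Vt m R) :
    specRad (m + 1) (adj m R) v ≤ ENNReal.ofReal (2 * √(m : ℝ) / (m + 1) + (m : ℝ) ^ 3 * r) := by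
  have hm' : (1 : ℝ) < m := by exact_mod_cast (show 1 < m by omega)
  rcases R with _ | R
  · refine (specRad_adj_le_one v).trans ?_
    rw [← ENNReal.ofReal_one]
    refine ENNReal.ofReal_le_ofReal ?_
    have h1 : (m : ℝ) ^ (0 + 2) * r ≤ (m : ℝ) ^ 3 * r :=
      mul_le_mul_of_nonneg_right (pow_le_pow_right₀ hm'.le (by norm_num)) hr0.le
    have h2 : 0 ≤ 2 * √(m : ℝ) / (m + 1) := by positivity
    linarith
  · refine (specRad_adj_le hm (by omega) v).trans (ENNReal.ofReal_le_ofReal ?_)
    unfold lam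
    rw [Nat.add_sub_cancel, add_div]
    have hy : 0 < (m : ℝ) ^ R := by positivity
    have h1 : be m / ((m : ℝ) ^ R + 1) / (m + 1) ≤ (m : ℝ) ^ 3 * r := by
      have hbe : be m ≤ 1 := by
        unfold be
        exact inv_le_one_of_one_le₀ (one_le_sqrt hm)
      have hbe0 := be_pos hm
      rw [div_div, div_le_iff₀ (by positivity)]
      have h2 : (m : ℝ) ^ (R + 1 + 2) = (m : ℝ) ^ 3 * (m : ℝ) ^ R := by ring
      rw [h2] at hR
      have h3 : (m : ℝ) ^ R ≤ ((m : ℝ) ^ R + 1) * (m + 1) := by nlinarith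
      have h4 : (m : ℝ) ^ 3 * (m : ℝ) ^ R * r ≤ (m : ℝ) ^ 3 * r * (((m : ℝ) ^ R + 1) * (m + 1)) := by
        calc (m : ℝ) ^ 3 * (m : ℝ) ^ R * r = (m : ℝ) ^ 3 * r * (m : ℝ) ^ R := by ring
          _ ≤ _ := mul_le_mul_of_nonneg_left h3 (by positivity)
      linarith
    linarith

/-- **The linear rate is attained.** -/
theorem result (d : ℕ) (hd : 3 ≤ d) : ∃ C : ℝ, 0 < C ∧ ∀ r : ℝ, 0 < r → r ≤ 1 →
    ∃ (V : Type) (_ : Countable V) (_ : Infinite V) (Ω : Type) (_ : MeasurableSpace Ω)
      (P : Measure Ω) (a : Ω → V → V → ℕ) (o : Ω → V),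
      IsUnimodular d P a o ∧
      essSup (fun ω => specRad d (a ω) (o ω)) P ≤
        ENNReal.ofReal (2 * √((d : ℝ) - 1) / d + C * r) ∧
      ENNReal.ofReal r ≤ P {ω | 1 ≤ a ω (o ω) (o ω)} := by
  obtain ⟨m, rfl⟩ : ∃ m, d = m + 1 := ⟨d - 1, by omega⟩
  have hm : 2 ≤ m := by omega
  have hm' : (0 : ℝ) < m := by exact_mod_cast (show 0 < m by omega)
  refine ⟨(m : ℝ) ^ 3, by positivity, fun r hr0 hr1 => ?_⟩
  obtain ⟨R, h1, h2⟩ := exists_radius hm hr0 hr1
  have hnt : Nontrivial (Idx m R) := by
    refine ⟨⟨(⟨List.replicate R ⟨0, by omega⟩, List.length_replicate⟩, ⟨0, by omega⟩),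
      (⟨List.replicate R ⟨0, by omega⟩, List.length_replicate⟩, ⟨1, by omega⟩), ?_⟩⟩
    intro h
    have := congrArg (fun z => (z.2 : ℕ)) h
    simp at this
  have hcount : Countable (Idx m R) := inferInstance
  refine ⟨Vt m R, inferInstance, inferInstance, Ball m R, instMS m R, unif m R, fun _ => adj m R,
    fun x => (1, x), isUnimodular m R, ?_, ?_⟩
  · refine essSup_le_of_ae_le _ (Eventually.of_forall fun x => ?_)
    have := specRad_bound hm hr0 h2 ((1, x) : Vt m R)
    push_cast
    rw [add_sub_cancel_right]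
    exact this
  · calc ENNReal.ofReal r ≤ ENNReal.ofReal (1 / (Fintype.card (Ball m R) : ℝ)) :=
          ENNReal.ofReal_le_ofReal h1
      _ = unif m R {⟨[], Nat.zero_le _⟩} := by
          rw [unif_singleton, one_div, ENNReal.ofReal_inv_of_pos (by
            exact_mod_cast Fintype.card_pos), ENNReal.ofReal_natCast]
      _ ≤ _ := by
          refine measure_mono ?_
          rintro _ rfl
          exact adj_loop 1

end Pool.Agent.Results.MP_74bc7f_pr.LinearRate
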